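import Pool.Agent.R45.CFD4

set_option autoImplicit false

/-!
# MP_e52bc6_co: total domination in claw-free diamond-free cubic graphs

For every `n ≥ 5` the class `𝒞` of connected `(K_{1,3}, K_4 - e)`-free cubic graphs contains a
graph of order `n` iff `6 ∣ n`, and for these `n`
`g(n) = n / 3 + 2 ⌊(n + 6) / 36⌋`. Hence `c* = 7 / 18`.

`InC G` (in `Pool.Agent.R45.CFD2`) says that `G` is connected, every neighbourhood has exactly
three elements, and neither `completeBipartiteGraph (Fin 1) (Fin 3)` nor the complete graph on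
`Fin 4` minus the edge `{0, 1}` embeds in `G` as an induced subgraph.
-/

namespace Pool.Agent.Results.MP_e52bc6_co.TotalDominationExact

open R45.CFD SimpleGraph Finset Filter Topology

/-- every vertex has a neighbour in `S` -/
def IsTDS {V : Type} (G : SimpleGraph V) (S : Finset V) : Prop := ∀ v, ∃ u ∈ S, G.Adj v u

/-- the total domination number -/
noncomputable def gammaT {V : Type} (G : SimpleGraph V) : ℕ :=
  sInf {k | ∃ S : Finset V, IsTDS G S ∧ S.card = k}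

/-- the set of values `γ_t(G)` over the graphs `G ∈ 𝒞` of order `n` -/
def vals (n : ℕ) : Set ℕ :=
  {k | ∃ (V : Type) (_ : Fintype V) (G : SimpleGraph V),
    Fintype.card V = n ∧ InC G ∧ gammaT G = k}

/-- `g(n)` -/
noncomputable def g (n : ℕ) : ℕ := sSup (vals n)

lemma tri_lower {V ι : Type} [Fintype V] [DecidableEq V] [DecidableEq ι] {G : SimpleGraph V}
    {τ : V → ι} {p : V → V} (h : Tri G τ p) (S : Finset V) (hS : IsTDS G S) :
    (univ.image τ).card ≤ S.card := by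
  classical
  have h1 : (univ : Finset V) ⊆ S.biUnion (fun u => (G.neighborSet u).toFinset) := by
    intro v _
    obtain ⟨u, hu, ha⟩ := hS v
    rw [Finset.mem_biUnion]
    exact ⟨u, hu, by simpa using ha.symm⟩
  have h2 := (Finset.card_le_card h1).trans Finset.card_biUnion_le
  have h3 : ∀ u ∈ S, (G.neighborSet u).toFinset.card = 3 := by
    intro u _
    rw [← Set.ncard_eq_toFinset_card']
    exact h.cubic u
  rw [Finset.sum_congr rfl h3, Finset.sum_const, smul_eq_mul, Finset.card_univ, h.card_V] at h2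
  omega

/-- upper bound for all graphs in the class -/
lemma upper_bound {V : Type} [Fintype V] (G : SimpleGraph V) (hG : InC G)
    (hV : 5 ≤ Fintype.card V) :
    ∃ N, Fintype.card V = 3 * N ∧ Even N ∧ gammaT G ≤ N + 2 * ((N + 2) / 12) := by
  classical
  obtain ⟨τ, p, h⟩ := hG.tri hV
  obtain ⟨S, hS, hc⟩ := h.upper hG.1
  refine ⟨(univ.image τ).card, h.card_V, h.even, le_trans ?_ hc⟩
  exact Nat.sInf_le ⟨S, hS, rfl⟩

lemma gr_tri {ι : Type} [Fintype ι] [DecidableEq ι] {p : ι × Fin 3 → ι × Fin 3} (h : Op p)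
    (hf : ∀ x, p x ≠ x) : Tri (gr p) (Prod.fst : ι × Fin 3 → ι) p := by
  refine ⟨h.pp, fun v => (h.ne v).resolve_left (hf v), ?_, ?_⟩
  · rintro ⟨t, i⟩
    have : univ.filter (fun u : ι × Fin 3 => u.1 = t) = ({t} : Finset ι) ×ˢ (univ : Finset (Fin 3)) := by
      ext ⟨s, j⟩
      simp [eq_comm]
    rw [this, Finset.card_product]
    simp
  · intro u v
    rw [gr_adj]
    constructor
    · rintro ⟨h1, h2 | h2 | h2⟩
      · exact Or.inl ⟨h1, h2⟩
      · exact Or.inr h2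
      · right; rw [h2, h.pp]
    · rintro (⟨h1, h2⟩ | h1)
      · exact ⟨h1, Or.inl h2⟩
      · exact ⟨fun e => hf u (by rw [← h1, ← e]), Or.inr (Or.inl h1)⟩

/-- the graph of a closed structure -/
lemma of_C {N L : ℕ} (h : C N L) : ∃ (V : Type) (_ : Fintype V) (G : SimpleGraph V),
    Fintype.card V = 3 * N ∧ InC G ∧ L ≤ gammaT G ∧ N ≤ gammaT G := by
  obtain ⟨ι, _, _, p, hN, hop, hf, hL⟩ := h
  have ht := gr_tri hop hf
  have hcard : Fintype.card (ι × Fin 3) = 3 * N := by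
    rw [Fintype.card_prod, Fintype.card_fin, hN, mul_comm]
  have hne : {k | ∃ S : Finset (ι × Fin 3), IsTDS (gr p) S ∧ S.card = k}.Nonempty := by
    obtain ⟨S, hS, _⟩ := ht.upper hop.conn
    exact ⟨_, S, hS, rfl⟩
  refine ⟨ι × Fin 3, inferInstance, gr p, hcard, ht.inC hop.conn, ?_, ?_⟩
  · apply le_csInf hne
    rintro k ⟨S, hS, rfl⟩
    exact hL S hS
  · apply le_csInf hne
    rintro k ⟨S, hS, rfl⟩
    have h1 := tri_lower ht S hS
    have h2 := ht.card_V
    rw [hcard] at h2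
    omega

/-- existence of extremal graphs with `N` triangles, for all even `N ≥ 2` -/
lemma extremal (N : ℕ) (hN : Even N) (h2 : 2 ≤ N) :
    ∃ (V : Type) (_ : Fintype V) (G : SimpleGraph V),
      Fintype.card V = 3 * N ∧ InC G ∧ N + 2 * ((N + 2) / 12) ≤ gammaT G := by
  obtain ⟨M, hM⟩ := hN
  by_cases h10 : 10 ≤ N
  · have h := of_C (chain_C ((N - 10) % 12 / 2) ((N - 10) / 12))
    have e1 : 10 + 2 * ((N - 10) % 12 / 2) + 12 * ((N - 10) / 12) = N := by omega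
    have e2 : 12 + 2 * ((N - 10) % 12 / 2) + 14 * ((N - 10) / 12) = N + 2 * ((N + 2) / 12) := by
      omega
    rw [e1, e2] at h
    obtain ⟨V, hV, G, h1, h2, h3, _⟩ := h
    exact ⟨V, hV, G, h1, h2, h3⟩
  · have hC : C N 0 := by
      have : N = 2 ∨ N = 4 ∨ N = 6 ∨ N = 8 := by omega
      rcases this with rfl | rfl | rfl | rfl
      · exact C2
      · exact C4
      · exact close_FF base_F base_F
      · exact close_FF (digon_F base_F) base_F
    obtain ⟨V, hV, G, h1, h2, _, h3⟩ := of_C hC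
    refine ⟨V, hV, G, h1, h2, ?_⟩
    omega

lemma vals_nonempty_iff (n : ℕ) (hn : 5 ≤ n) : (vals n).Nonempty ↔ 6 ∣ n := by
  constructor
  · rintro ⟨k, V, hV, G, hc, hG, _⟩
    obtain ⟨N, h1, ⟨M, h2⟩, _⟩ := upper_bound G hG (by omega)
    omega
  · rintro ⟨M, rfl⟩
    obtain ⟨V, hV, G, h1, h2, _⟩ := extremal (2 * M) (even_two_mul M) (by omega)
    exact ⟨_, V, hV, G, by omega, h2, rfl⟩

lemma greatest (n : ℕ) (hn : 5 ≤ n) (h6 : 6 ∣ n) :
    IsGreatest (vals n) (n / 3 + 2 * ((n + 6) / 36)) := by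
  obtain ⟨M, rfl⟩ := h6
  have hub : ∀ k ∈ vals (6 * M), k ≤ 6 * M / 3 + 2 * ((6 * M + 6) / 36) := by
    rintro k ⟨V, hV, G, hc, hG, rfl⟩
    obtain ⟨N, h1, ⟨K, h2⟩, h3⟩ := upper_bound G hG (by omega)
    refine h3.trans ?_
    omega
  refine ⟨?_, hub⟩
  obtain ⟨V, hV, G, h1, h2, h3⟩ := extremal (2 * M) (even_two_mul M) (by omega)
  have hmem : gammaT G ∈ vals (6 * M) := ⟨V, hV, G, by omega, h2, rfl⟩
  have h4 := hub _ hmem
  have h5 : 6 * M / 3 + 2 * ((6 * M + 6) / 36) ≤ gammaT G := by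
    refine le_trans ?_ h3
    omega
  rw [le_antisymm h5 h4]
  exact hmem

lemma g_eq (n : ℕ) (hn : 5 ≤ n) (h6 : 6 ∣ n) : g n = n / 3 + 2 * ((n + 6) / 36) :=
  (greatest n hn h6).csSup_eq

lemma tendsto_g : Tendsto (fun n : ℕ => (g n : ℝ) / n) (atTop ⊓ 𝓟 {n | (vals n).Nonempty})
    (𝓝 (7 / 18)) := by
  have hev : ∀ᶠ n in atTop ⊓ 𝓟 {n | (vals n).Nonempty}, 5 ≤ n ∧ 6 ∣ n := by
    rw [eventually_inf_principal]
    filter_upwards [eventually_ge_atTop 5] with n hn hne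
    exact ⟨hn, (vals_nonempty_iff n hn).1 hne⟩
  have hbd : ∀ n : ℕ, 5 ≤ n → 6 ∣ n → 7 * n ≤ 18 * g n + 29 ∧ 18 * g n ≤ 7 * n + 6 := by
    intro n hn h6
    rw [g_eq n hn h6]
    omega
  have hinv : Tendsto (fun n : ℕ => ((n : ℝ))⁻¹) (atTop ⊓ 𝓟 {n | (vals n).Nonempty}) (𝓝 0) :=
    (tendsto_inv_atTop_nhds_zero_nat (𝕜 := ℝ)).mono_left inf_le_left
  have hlow : Tendsto (fun n : ℕ => (7 / 18 : ℝ) - 29 / 18 * ((n : ℝ))⁻¹)
      (atTop ⊓ 𝓟 {n | (vals n).Nonempty}) (𝓝 (7 / 18)) := by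
    have := (tendsto_const_nhds (x := (7 / 18 : ℝ))).sub (hinv.const_mul (29 / 18 : ℝ))
    simpa using this
  have hupp : Tendsto (fun n : ℕ => (7 / 18 : ℝ) + 6 / 18 * ((n : ℝ))⁻¹)
      (atTop ⊓ 𝓟 {n | (vals n).Nonempty}) (𝓝 (7 / 18)) := by
    have := (tendsto_const_nhds (x := (7 / 18 : ℝ))).add (hinv.const_mul (6 / 18 : ℝ))
    simpa using this
  refine tendsto_of_tendsto_of_tendsto_of_le_of_le' hlow hupp ?_ ?_
  · filter_upwards [hev] with n hn
    obtain ⟨h1, _⟩ := hbd n hn.1 hn.2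
    have hn0 : (0 : ℝ) < n := by
      have : 0 < n := by omega
      exact_mod_cast this
    have h1' : (7 : ℝ) * n ≤ 18 * g n + 29 := by exact_mod_cast h1
    rw [le_div_iff₀ hn0, sub_mul, mul_assoc, inv_mul_cancel₀ hn0.ne']
    linarith
  · filter_upwards [hev] with n hn
    obtain ⟨_, h1⟩ := hbd n hn.1 hn.2
    have hn0 : (0 : ℝ) < n := by
      have : 0 < n := by omega
      exact_mod_cast this
    have h1' : (18 : ℝ) * g n ≤ 7 * n + 6 := by exact_mod_cast h1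
    rw [div_le_iff₀ hn0, add_mul, mul_assoc, inv_mul_cancel₀ hn0.ne']
    linarith

/-- **Main result.** For `n ≥ 5` the class `𝒞` contains a graph of order `n` iff `6 ∣ n`; for these
`n`, `g(n) = n/3 + 2⌊(n+6)/36⌋` and the maximum is attained; and `c* = limsup g(n)/n = 7/18`. -/
theorem result :
    (∀ n, 5 ≤ n → ((vals n).Nonempty ↔ 6 ∣ n)) ∧
    (∀ n, 5 ≤ n → 6 ∣ n → IsGreatest (vals n) (n / 3 + 2 * ((n + 6) / 36)) ∧
      g n = n / 3 + 2 * ((n + 6) / 36)) ∧
    limsup (fun n : ℕ => (g n : ℝ) / n) (atTop ⊓ 𝓟 {n | (vals n).Nonempty}) = 7 / 18 := by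
  refine ⟨vals_nonempty_iff, fun n hn h6 => ⟨greatest n hn h6, g_eq n hn h6⟩, ?_⟩
  have : (atTop ⊓ 𝓟 {n | (vals n).Nonempty}).NeBot := by
    rw [← frequently_mem_iff_neBot, frequently_atTop]
    intro a
    refine ⟨6 * (a + 1), by omega, ?_⟩
    exact (vals_nonempty_iff _ (by omega)).2 ⟨_, rfl⟩
  exact tendsto_g.limsup_eq

end Pool.Agent.Results.MP_e52bc6_co.TotalDominationExact
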